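import Pool.Agent.Q103.BNS.Weight
import Pool.Agent.Helper386.PD3.Data

/-!
# The opposite half-space
-/

namespace Pool.Agent.Q103.BNS

open Helper386.PD3 Pool.Agent.Helper158

set_option linter.unusedSectionVars false

open scoped Classical ENNReal

noncomputable section

variable {G : Type} [Group G]

/-- steps in the part `χ ≥ 0` of the Cayley graph -/
def Up (χ : G → ℝ) (S : Set G) (a b : G) : Prop :=
  0 ≤ χ a ∧ 0 ≤ χ b ∧ (a⁻¹ * b ∈ S ∨ b⁻¹ * a ∈ S)

theorem Up.symm {χ : G → ℝ} {S : Set G} {a b : G} (h : Up χ S a b) : Up χ S b a :=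
  ⟨h.2.1, h.1, h.2.2.symm⟩

theorem half_of_allInner (χ : G → ℝ) (hχ : ∀ g h, χ (g * h) = χ g + χ h) (S : Set G)
    (hgen : Subgroup.closure S = ⊤) (t : G) (ht : t ∈ S ∨ t⁻¹ ∈ S) (htχ : 0 < χ t) (r : ℝ)
    (hr : 0 < r) (w : G →* ℤˣ) (hjj : AllInner (jj w (ex χ hχ r))) (x : G) (hx : 0 ≤ χ x) :
    Relation.ReflTransGen (Up χ S) 1 x := by
  by_contra hxt
  set c := ex χ hχ r with hc
  let κ : G →* ℝ := kap w c
  let P : G → Prop := fun y => Relation.ReflTransGen (Up χ S) 1 y⁻¹
  let μh : G → ℝ := fun y => if P y then κ y else 0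
  have hP1 : P 1 := by
    show Relation.ReflTransGen (Up χ S) 1 1⁻¹
    rw [inv_one]
  have hPpos : ∀ y, P y → 0 ≤ χ y⁻¹ := by
    intro y hy
    rcases Relation.ReflTransGen.cases_tail hy with h | ⟨z, -, h⟩
    · rw [h, chi_one χ hχ]
    · exact h.2.1
  have habs : ∀ y, |κ y| = Real.exp (r * χ y⁻¹) := by
    intro y
    change |kap w c y| = _
    rw [abs_kap, hc, ex_apply, Real.abs_exp, ← Real.exp_neg, chi_inv χ hχ]
    congr 1
    ring
  have hκ : ∀ g y, κ g * κ (g⁻¹ * y) = κ y := by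
    intro g y
    rw [← map_mul, mul_inv_cancel_left]
  -- the two positions agree if both are in the half-space
  have hadj : ∀ s ∈ S, ∀ y, 0 ≤ χ y⁻¹ → 0 ≤ χ (s⁻¹ * y)⁻¹ → (P y ↔ P (s⁻¹ * y)) := by
    intro s hs y h1 h2
    have e : (s⁻¹ * y)⁻¹ = y⁻¹ * s := by group
    have hst : Up χ S y⁻¹ (s⁻¹ * y)⁻¹ := by
      refine ⟨h1, h2, Or.inl ?_⟩
      rw [e, inv_mul_cancel_left]
      exact hs
    exact ⟨fun h => Relation.ReflTransGen.tail h hst,
      fun h => Relation.ReflTransGen.tail h hst.symm⟩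
  have hex : ∀ g : G, ∃ ν : NN G, ∀ y, ν.ev (dl1 y) = κ g * μh (g⁻¹ * y) - μh y := by
    intro g
    have hg : g ∈ Subgroup.closure S := by
      rw [hgen]
      trivial
    induction hg using Subgroup.closure_induction with
    | mem a ha =>
      refine exists_functional (fun y => κ a * μh (a⁻¹ * y) - μh y) (Real.exp (r * |χ a|))
        (fun y => ?_)
      change |κ a * (if P (a⁻¹ * y) then κ (a⁻¹ * y) else 0) - (if P y then κ y else 0)| ≤ _
      have e : χ (a⁻¹ * y)⁻¹ = χ y⁻¹ + χ a := by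
        rw [mul_inv_rev, inv_inv, hχ]
      have hbd : χ y⁻¹ ≤ |χ a| → |κ y| ≤ Real.exp (r * |χ a|) := by
        intro h
        rw [habs]
        exact Real.exp_le_exp.2 (mul_le_mul_of_nonneg_left h hr.le)
      by_cases hP : P y
      · by_cases hP' : P (a⁻¹ * y)
        · rw [if_pos hP, if_pos hP', hκ, sub_self, abs_zero]
          exact (Real.exp_pos _).le
        · rw [if_pos hP, if_neg hP', mul_zero, zero_sub, abs_neg]
          apply hbd
          have h1 := hPpos y hP
          by_contra hlt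
          push Not at hlt
          refine hP' ((hadj a ha y h1 ?_).1 hP)
          rw [e]
          linarith [neg_abs_le (χ a)]
      · by_cases hP' : P (a⁻¹ * y)
        · rw [if_neg hP, if_pos hP', hκ, sub_zero]
          apply hbd
          have h1 := hPpos _ hP'
          by_contra hlt
          push Not at hlt
          refine hP ((hadj a ha y ?_ h1).2 hP')
          linarith [abs_nonneg (χ a)]
        · rw [if_neg hP, if_neg hP', mul_zero, sub_zero, abs_zero]
          exact (Real.exp_pos _).le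
    | one =>
      refine ⟨0, fun y => ?_⟩
      rw [map_one, inv_one, one_mul, one_mul, sub_self]
      rfl
    | mul a b _ _ iha ihb =>
      obtain ⟨νa, ha⟩ := iha
      obtain ⟨νb, hb⟩ := ihb
      refine ⟨νa + jj w c (gof a) • νb, fun y => ?_⟩
      rw [NN.ev_add, ev_jj, ha, hb]
      change _ + κ a * _ = _
      rw [map_mul, mul_inv_rev, mul_assoc b⁻¹]
      ring
    | inv a _ iha =>
      obtain ⟨νa, ha⟩ := iha
      refine ⟨-(jj w c (gof a⁻¹) • νa), fun y => ?_⟩
      rw [NN.ev_neg, ev_jj, ha]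
      change -(κ a⁻¹ * _) = _
      rw [inv_inv, inv_mul_cancel_left]
      have h1 : κ a⁻¹ * κ a = 1 := by rw [← map_mul, inv_mul_cancel, map_one]
      linear_combination (-(μh y)) * h1
  choose δ hδ using hex
  have hder : IsDer (jj w c) δ := by
    intro g k
    apply NN.ext
    intro y
    rw [NN.ev_add, ev_jj, hδ, hδ, hδ]
    change _ = _ + κ g * _
    rw [map_mul, mul_inv_rev, mul_assoc k⁻¹]
    ring
  obtain ⟨μ, hμ⟩ := hjj (NN G) δ hder
  let m : G → ℝ := fun y => μ.ev (dl1 y)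
  let C : ℝ := ‖(show L1 G →L[ℝ] ℝ from μ)‖
  have hm : ∀ y, |m y| ≤ C := by
    intro y
    have h1 := (show L1 G →L[ℝ] ℝ from μ).le_opNorm (dl1 y)
    rw [norm_dl1, mul_one] at h1
    exact h1
  have heq : ∀ g, μh g = κ g * (1 - m 1) + m g := by
    intro g
    have h1 := hδ g g
    rw [hμ, NN.ev_sub, ev_jj, inv_mul_cancel] at h1
    have h2 : μh 1 = 1 := by
      change (if P 1 then κ 1 else 0) = 1
      rw [if_pos hP1, map_one]
    rw [h2] at h1
    change κ g * m 1 - m g = _ at h1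
    linear_combination h1
  -- moving up
  have hup : ∀ z : G, 0 ≤ χ z → ∀ k : ℕ, Relation.ReflTransGen (Up χ S) z (z * t ^ k) := by
    intro z hz k
    induction k with
    | zero => rw [pow_zero, mul_one]
    | succ k ih =>
      refine Relation.ReflTransGen.tail ih ⟨?_, ?_, ?_⟩
      · rw [hχ, chi_pow χ hχ]
        positivity
      · rw [hχ, chi_pow χ hχ]
        positivity
      · have e1 : (z * t ^ k)⁻¹ * (z * t ^ (k + 1)) = t := by rw [pow_succ]; group
        have e2 : (z * t ^ (k + 1))⁻¹ * (z * t ^ k) = t⁻¹ := by rw [pow_succ]; group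
        rw [e1, e2]
        exact ht
  have hsymm : ∀ a b, Relation.ReflTransGen (Up χ S) a b → Relation.ReflTransGen (Up χ S) b a := by
    intro a b h
    induction h with
    | refl => exact Relation.ReflTransGen.refl
    | tail _ hst ih => exact Relation.ReflTransGen.head hst.symm ih
  have hs1 : 1 < Real.exp (r * χ t) := Real.one_lt_exp_iff.2 (by positivity)
  have hκz : ∀ z : G, ∀ k : ℕ, |κ (z * t ^ k)⁻¹| = Real.exp (r * χ t) ^ k * |κ z⁻¹| := by
    intro z k
    rw [habs, habs, inv_inv, inv_inv, hχ, chi_pow χ hχ, ← Real.exp_nat_mul, ← Real.exp_add]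
    congr 1
    ring
  have hD1 : |m 1| = 0 := by
    refine eq_zero_of_pow hs1 (abs_nonneg _) (C := C) (fun k => ?_)
    have h1 := heq (1 * t ^ k)⁻¹
    have h2 : μh (1 * t ^ k)⁻¹ = κ (1 * t ^ k)⁻¹ := by
      change (if P (1 * t ^ k)⁻¹ then κ (1 * t ^ k)⁻¹ else 0) = _
      rw [if_pos]
      show Relation.ReflTransGen (Up χ S) 1 (1 * t ^ k)⁻¹⁻¹
      rw [inv_inv]
      exact hup 1 (chi_one χ hχ).ge k
    rw [h2] at h1
    have h3 : κ (1 * t ^ k)⁻¹ * m 1 = m (1 * t ^ k)⁻¹ := by linear_combination h1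
    have h4 := hκz 1 k
    rw [inv_one, map_one, abs_one, mul_one] at h4
    rw [← h4, ← abs_mul, h3]
    exact hm _
  have hD2 : |κ x⁻¹| * |1 - m 1| = 0 := by
    refine eq_zero_of_pow hs1 (by positivity) (C := C) (fun k => ?_)
    have h1 := heq (x * t ^ k)⁻¹
    have h2 : μh (x * t ^ k)⁻¹ = 0 := by
      change (if P (x * t ^ k)⁻¹ then κ (x * t ^ k)⁻¹ else 0) = _
      rw [if_neg]
      intro h
      have h' : Relation.ReflTransGen (Up χ S) 1 (x * t ^ k)⁻¹⁻¹ := h
      rw [inv_inv] at h'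
      exact hxt (h'.trans (hsymm _ _ (hup x hx k)))
    rw [h2] at h1
    have h3 : κ (x * t ^ k)⁻¹ * (1 - m 1) = -m (x * t ^ k)⁻¹ := by linear_combination -h1
    rw [← mul_assoc, ← hκz, ← abs_mul, h3, abs_neg]
    exact hm _
  have hx0 : |κ x⁻¹| ≠ 0 := by
    rw [habs]
    exact (Real.exp_pos _).ne'
  have hD3 := (mul_eq_zero.1 hD2).resolve_left hx0
  rw [abs_eq_zero] at hD1 hD3
  rw [hD1] at hD3
  norm_num at hD3

/-- **Symmetry of the Bieri-Neumann-Strebel invariant.** -/
theorem symm_of_full {n : ℕ} {w : G →* ℤˣ} {e0 e1 e2 e3 d0 d1 d2 : MR G n}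
    (hF : Full w e0 e1 e2 e3 d0 d1 d2) (S : Finset G)
    (hgen : Subgroup.closure (S : Set G) = ⊤) (χ : G → ℝ) (hχ : ∀ g h, χ (g * h) = χ g + χ h)
    (hc : ∀ g, χ g ≤ 0 → Relation.ReflTransGen (Step χ (S : Set G) 0) 1 g) (x : G)
    (hx : 0 ≤ χ x) : Relation.ReflTransGen (Up χ (S : Set G)) 1 x := by
  by_cases hex : ∃ t : G, (t ∈ (S : Set G) ∨ t⁻¹ ∈ (S : Set G)) ∧ 0 < χ t
  · obtain ⟨t, ht, htχ⟩ := hex
    obtain ⟨d, h, hh⟩ : ∃ (d : ℕ) (h : Fin d → G), Set.range h = (S : Set G) := by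
      refine ⟨S.card, fun i => (S.equivFin.symm i : G), ?_⟩
      ext x
      constructor
      · rintro ⟨i, rfl⟩
        exact (S.equivFin.symm i).2
      · intro hx
        exact ⟨S.equivFin ⟨x, hx⟩, by simp⟩
    obtain ⟨r, hr, hA⟩ := exists_weight' χ hχ h (by rw [hh]; exact hgen) t (by rw [hh]; exact ht)
      htχ (by rw [hh]; exact hc)
    have hct : 1 < ex χ hχ r t := by
      rw [ex_apply]
      exact Real.one_lt_exp_iff.2 (by positivity)
    exact half_of_allInner χ hχ S hgen t ht htχ r hr w (allInner_jj hF _ hA t hct) x hx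
  · -- the trivial character
    push Not at hex
    have h0 : ∀ s ∈ (S : Set G), χ s = 0 := by
      intro s hs
      have h1 := hex s (Or.inl hs)
      have h2 := hex s⁻¹ (Or.inr (by rwa [inv_inv]))
      rw [chi_inv χ hχ] at h2
      linarith
    have hall : ∀ g : G, χ g = 0 := by
      intro g
      have hg : g ∈ Subgroup.closure (S : Set G) := by
        rw [hgen]
        trivial
      induction hg using Subgroup.closure_induction with
      | mem a ha => exact h0 a ha
      | one => exact chi_one χ hχ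
      | mul a b _ _ ha hb => rw [hχ, ha, hb, add_zero]
      | inv a _ ha => rw [chi_inv χ hχ, ha, neg_zero]
    have hle : Step χ (S : Set G) 0 ≤ Up χ (S : Set G) := by
      rintro a b ⟨-, -, hs⟩
      exact ⟨(hall a).ge, (hall b).ge, hs⟩
    exact Relation.ReflTransGen.mono hle _ _ (hc x (hall x).le)

end

end Pool.Agent.Q103.BNS
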