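import Pool.Agent.Helper386.PD3.Fin

/-!
# Real characters of large weight

If the half-space `χ ≤ 0` of the Cayley graph of `G` is connected, then all derivations with values
in modules over the operator algebra are inner, for the weight `exp (r χ)` with `r` large.
-/

namespace Pool.Agent.Q103.BNS

open Helper386.PD3

set_option linter.unusedSectionVars false

open scoped Classical

noncomputable section

variable {G : Type} [Group G]

/-- the character `g ↦ exp (r χ g)` -/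
def ex (χ : G → ℝ) (hχ : ∀ g h, χ (g * h) = χ g + χ h) (r : ℝ) : G →* ℝ where
  toFun g := Real.exp (r * χ g)
  map_one' := by
    have h := hχ 1 1
    rw [mul_one] at h
    have h0 : χ 1 = 0 := by linarith
    rw [h0, mul_zero, Real.exp_zero]
  map_mul' g h := by
    rw [hχ, mul_add, Real.exp_add]

theorem ex_apply (χ : G → ℝ) (hχ : ∀ g h, χ (g * h) = χ g + χ h) (r : ℝ) (g : G) :
    ex χ hχ r g = Real.exp (r * χ g) := rfl

theorem chi_one (χ : G → ℝ) (hχ : ∀ g h, χ (g * h) = χ g + χ h) : χ 1 = 0 := by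
  have h := hχ 1 1
  rw [mul_one] at h
  linarith

theorem chi_inv (χ : G → ℝ) (hχ : ∀ g h, χ (g * h) = χ g + χ h) (g : G) : χ g⁻¹ = - χ g := by
  have h := hχ g g⁻¹
  rw [mul_inv_cancel, chi_one χ hχ] at h
  linarith

theorem chi_pow (χ : G → ℝ) (hχ : ∀ g h, χ (g * h) = χ g + χ h) (g : G) (k : ℕ) :
    χ (g ^ k) = k * χ g := by
  induction k with
  | zero => simp [chi_one χ hχ]
  | succ k ih =>
    rw [pow_succ, hχ, ih]
    push_cast
    ring

/-- elements of the group ring supported in `χ ≤ M` -/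
def LowB (χ : G → ℝ) (M : ℝ) : AddSubgroup (RR G) :=
  AddSubgroup.closure {x | ∃ g, χ g ≤ M ∧ x = gof g}

theorem norm_gof (c : G →* ℝ) (g : G) : ‖iota c (gof g)‖ ≤ |c g| := by
  rw [iota_of]
  change ‖c g • ((lamA g).1 : (L1 G →L[ℝ] L1 G) × (L2 G →L[ℝ] L2 G))‖ ≤ |c g|
  rw [norm_smul, Real.norm_eq_abs]
  exact mul_le_of_le_one_right (abs_nonneg _) (norm_lamA_le g)

theorem lowB_bound (χ : G → ℝ) (hχ : ∀ g h, χ (g * h) = χ g + χ h) (M : ℝ) {x : RR G}
    (hx : x ∈ LowB χ M) :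
    ∃ C : ℝ, 0 ≤ C ∧ ∀ r : ℝ, 0 ≤ r → ‖iota (ex χ hχ r) x‖ ≤ C * Real.exp (r * M) := by
  induction hx using AddSubgroup.closure_induction with
  | mem x hx =>
    obtain ⟨g, hg, rfl⟩ := hx
    refine ⟨1, zero_le_one, fun r hr => ?_⟩
    refine (norm_gof _ g).trans ?_
    rw [one_mul, ex_apply, Real.abs_exp]
    exact Real.exp_le_exp.2 (mul_le_mul_of_nonneg_left hg hr)
  | zero =>
    refine ⟨0, le_rfl, fun r hr => ?_⟩
    rw [map_zero, norm_zero, zero_mul]
  | add x y _ _ hx hy =>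
    obtain ⟨C, hC, h⟩ := hx
    obtain ⟨C', hC', h'⟩ := hy
    refine ⟨C + C', by positivity, fun r hr => ?_⟩
    rw [map_add, add_mul]
    exact (norm_add_le _ _).trans (add_le_add (h r hr) (h' r hr))
  | neg x _ hx =>
    obtain ⟨C, hC, h⟩ := hx
    refine ⟨C, hC, fun r hr => ?_⟩
    rw [map_neg, norm_neg]
    exact h r hr

/-- steps in the part `χ ≤ M` of the Cayley graph -/
def Step (χ : G → ℝ) (S : Set G) (M : ℝ) (a b : G) : Prop :=
  χ a ≤ M ∧ χ b ≤ M ∧ (a⁻¹ * b ∈ S ∨ b⁻¹ * a ∈ S)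

theorem fox_path {d : ℕ} (h : Fin d → G) (χ : G → ℝ) (M : ℝ) {g : G} (hg : Relation.ReflTransGen (Step χ (Set.range h) M) 1 g) :
    ∃ W : Fin d → RR G, gof g - 1 = ∑ j, W j * (gof (h j) - 1) ∧ ∀ j, W j ∈ LowB χ M := by
  induction hg with
  | refl =>
    refine ⟨0, ?_, fun j => zero_mem _⟩
    rw [gof_one, sub_self]
    simp
  | @tail a b _ hstep ih =>
    obtain ⟨W, h1, h2⟩ := ih
    obtain ⟨ha, hb, hs | hs⟩ := hstep
    · obtain ⟨i, hi⟩ := hs
      refine ⟨fun j => W j + if j = i then gof a else 0, ?_, fun j => ?_⟩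
      · have e : gof b - 1 = (gof a - 1) + gof a * (gof (h i) - 1) := by
          rw [hi, mul_sub, mul_one, ← gof_mul, mul_inv_cancel_left]
          abel
        rw [e, h1]
        simp only [add_mul, Finset.sum_add_distrib]
        congr 1
        rw [Finset.sum_eq_single i]
        · rw [if_pos rfl]
        · intro j _ hj
          rw [if_neg hj, zero_mul]
        · intro h
          exact absurd (Finset.mem_univ i) h
      · refine add_mem (h2 j) ?_
        split_ifs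
        · exact AddSubgroup.subset_closure ⟨a, ha, rfl⟩
        · exact zero_mem _
    · obtain ⟨i, hi⟩ := hs
      refine ⟨fun j => W j + if j = i then -gof b else 0, ?_, fun j => ?_⟩
      · have e : gof b - 1 = (gof a - 1) + (-gof b) * (gof (h i) - 1) := by
          rw [hi, mul_sub, mul_one, neg_mul, ← gof_mul, mul_inv_cancel_left]
          abel
        rw [e, h1]
        simp only [add_mul, Finset.sum_add_distrib]
        congr 1
        rw [Finset.sum_eq_single i]
        · rw [if_pos rfl]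
        · intro j _ hj
          rw [if_neg hj, zero_mul]
        · intro h
          exact absurd (Finset.mem_univ i) h
      · refine add_mem (h2 j) ?_
        split_ifs
        · exact neg_mem (AddSubgroup.subset_closure ⟨b, hb, rfl⟩)
        · exact zero_mem _

/-- in a connected half-space -/
theorem conn_up (χ : G → ℝ) (hχ : ∀ g h, χ (g * h) = χ g + χ h) (S : Set G) (t : G)
    (ht : t ∈ S ∨ t⁻¹ ∈ S) (htχ : 0 < χ t)
    (hc : ∀ g, χ g ≤ 0 → Relation.ReflTransGen (Step χ S 0) 1 g) (M : ℝ) (hM : 0 ≤ M) (g : G)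
    (hg : χ g ≤ M) : Relation.ReflTransGen (Step χ S M) 1 g := by
  obtain ⟨k, hk⟩ := exists_nat_gt (χ g / χ t)
  rw [div_lt_iff₀ htχ] at hk
  have h1 : Relation.ReflTransGen (Step χ S 0) 1 (g * (t⁻¹) ^ k) := by
    apply hc
    rw [hχ, chi_pow χ hχ, chi_inv χ hχ]
    nlinarith
  have h2 : Relation.ReflTransGen (Step χ S M) 1 (g * (t⁻¹) ^ k) := by
    have hle : Step χ S 0 ≤ Step χ S M := by
      rintro a b ⟨ha, hb, hs⟩
      exact ⟨ha.trans hM, hb.trans hM, hs⟩
    exact Relation.ReflTransGen.mono hle _ _ h1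
  have h3 : ∀ j : ℕ, Relation.ReflTransGen (Step χ S M) (g * (t⁻¹) ^ j) g := by
    intro j
    induction j with
    | zero => rw [pow_zero, mul_one]
    | succ j ih =>
      refine Relation.ReflTransGen.head ?_ ih
      refine ⟨?_, ?_, ?_⟩
      · rw [hχ, chi_pow χ hχ, chi_inv χ hχ]
        have : (0 : ℝ) ≤ ((j + 1 : ℕ) : ℝ) := Nat.cast_nonneg _
        nlinarith
      · rw [hχ, chi_pow χ hχ, chi_inv χ hχ]
        have : (0 : ℝ) ≤ (j : ℝ) := Nat.cast_nonneg _
        nlinarith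
      · have e1 : (g * (t⁻¹) ^ (j + 1))⁻¹ * (g * (t⁻¹) ^ j) = t := by
          rw [pow_succ]; group
        have e2 : (g * (t⁻¹) ^ j)⁻¹ * (g * (t⁻¹) ^ (j + 1)) = t⁻¹ := by
          rw [pow_succ]; group
        rw [e1, e2]
        exact ht
  exact h2.trans (h3 k)

section mat

variable {A : Type*} [NormedRing A] [CompleteSpace A] {d : ℕ}

open scoped Matrix.Norms.Operator

theorem exists_inv_of_sum (M : Matrix (Fin d) (Fin d) A) (h : ∑ i, ∑ j, ‖M i j‖ < 1) :
    ∃ S : Matrix (Fin d) (Fin d) A, S * (1 - M) = 1 := by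
  have := complete_mat (A := A) (d := d)
  have h1 : ‖M‖ < 1 := by
    refine lt_of_le_of_lt ?_ h
    rw [Matrix.linfty_opNorm_def]
    have h2 : (Finset.univ.sup fun i => ∑ j, ‖M i j‖₊) ≤ ∑ i, ∑ j, ‖M i j‖₊ := by
      refine Finset.sup_le fun i _ => ?_
      exact Finset.single_le_sum (f := fun i => ∑ j, ‖M i j‖₊) (fun _ _ => zero_le)
        (Finset.mem_univ i)
    have h3 := NNReal.coe_le_coe.2 h2
    refine h3.trans (le_of_eq ?_)
    push_cast
    rfl
  obtain ⟨u, hu⟩ := isUnit_one_sub_of_norm_lt_one h1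
  exact ⟨↑u⁻¹, by rw [← hu, Units.inv_mul]⟩

end mat

/-- **Large weights.** -/
theorem exists_weight' (χ : G → ℝ) (hχ : ∀ g h, χ (g * h) = χ g + χ h) {d : ℕ} (h : Fin d → G)
    (hgen : Subgroup.closure (Set.range h) = ⊤) (t : G)
    (ht : t ∈ Set.range h ∨ t⁻¹ ∈ Set.range h) (htχ : 0 < χ t)
    (hc : ∀ g, χ g ≤ 0 → Relation.ReflTransGen (Step χ (Set.range h) 0) 1 g) :
    ∃ r : ℝ, 0 < r ∧ AllInner (iota (ex χ hχ r)) := by
  obtain ⟨M, hM0, hM⟩ : ∃ M : ℝ, 0 ≤ M ∧ ∀ i, χ (h i) ≤ M := by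
    refine ⟨∑ i, |χ (h i)|, Finset.sum_nonneg fun _ _ => abs_nonneg _, fun i => ?_⟩
    exact (le_abs_self _).trans (Finset.single_le_sum (f := fun i => |χ (h i)|)
      (fun _ _ => abs_nonneg _) (Finset.mem_univ i))
  obtain ⟨k, hk⟩ := exists_nat_gt ((M + 1) / χ t)
  rw [div_lt_iff₀ htχ] at hk
  set t' : G := t ^ k with ht'
  have hχt' : M + 1 < χ t' := by rw [ht', chi_pow χ hχ]; exact hk
  have hfox : ∀ i, ∃ W : Fin d → RR G, gof (t' * h i * t'⁻¹) - 1 = ∑ j, W j * (gof (h j) - 1) ∧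
      ∀ j, W j ∈ LowB χ M := by
    intro i
    apply fox_path h χ M
    apply conn_up χ hχ _ t ht htχ hc M hM0
    rw [hχ, hχ, chi_inv χ hχ]
    linarith [hM i]
  choose W hW1 hW2 using hfox
  choose C hC0 hC using fun i j => lowB_bound χ hχ M (hW2 i j)
  set D : ℝ := ∑ i, ∑ j, C i j with hD
  have hD0 : 0 ≤ D := Finset.sum_nonneg fun i _ => Finset.sum_nonneg fun j _ => hC0 i j
  obtain ⟨r, hr0, hr⟩ : ∃ r : ℝ, 0 < r ∧ D < Real.exp r := by
    refine ⟨D + 1, by linarith, ?_⟩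
    have := Real.add_one_le_exp (D + 1)
    linarith
  refine ⟨r, hr0, ?_⟩
  set c := ex χ hχ r with hcdef
  have hct : 1 < c t' := by
    rw [hcdef, ex_apply]
    exact Real.one_lt_exp_iff.2 (by nlinarith)
  have hct0 : c t' ≠ 0 := by linarith
  have hct1 : 0 < c t' := by linarith
  set Wm : Matrix (Fin d) (Fin d) (OA G) := (Matrix.of W).map (iota c) with hWm
  set B : Matrix (Fin d) (Fin d) (OA G) :=
    Matrix.of fun i j => ((c t')⁻¹ • lamA t'⁻¹) * Wm i j with hB
  obtain ⟨S', hS'⟩ : ∃ S' : Matrix (Fin d) (Fin d) (OA G), S' * (1 - B) = 1 := by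
    apply exists_inv_of_sum
    have h1 : ∀ i j, ‖B i j‖ ≤ C i j * Real.exp (-r) := by
      intro i j
      have e1 : B i j = ((c t')⁻¹ • lamA t'⁻¹) * iota c (W i j) := rfl
      have e2 : ‖(c t')⁻¹ • lamA t'⁻¹‖ ≤ (c t')⁻¹ := by
        change ‖(c t')⁻¹ • ((lamA t'⁻¹).1 : (L1 G →L[ℝ] L1 G) × (L2 G →L[ℝ] L2 G))‖ ≤ (c t')⁻¹
        rw [norm_smul, Real.norm_eq_abs, abs_of_pos (inv_pos.2 hct1)]
        exact mul_le_of_le_one_right (inv_pos.2 hct1).le (norm_lamA_le _)
      rw [e1]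
      refine (norm_mul_le _ _).trans ?_
      refine (mul_le_mul e2 (hC i j r hr0.le) (norm_nonneg _) (inv_pos.2 hct1).le).trans ?_
      rw [hcdef, ex_apply, ← Real.exp_neg, mul_left_comm, ← Real.exp_add]
      refine mul_le_mul_of_nonneg_left (Real.exp_le_exp.2 ?_) (hC0 i j)
      nlinarith
    have h2 : ∑ i, ∑ j, ‖B i j‖ ≤ D * Real.exp (-r) := by
      rw [hD, Finset.sum_mul]
      refine Finset.sum_le_sum fun i _ => ?_
      rw [Finset.sum_mul]
      exact Finset.sum_le_sum fun j _ => h1 i j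
    refine h2.trans_lt ?_
    rw [Real.exp_neg, ← div_eq_mul_inv, div_lt_one (Real.exp_pos r)]
    exact hr
  have hgen' : Subgroup.closure (Set.range h ∪ {t'}) = ⊤ := by
    rw [eq_top_iff, ← hgen]
    exact Subgroup.closure_mono Set.subset_union_left
  refine allInner_of h t' hgen' (Matrix.of W) hW1 ?_
    (Matrix.diagonal (fun _ => iota c (gof t')) - (Matrix.of W).map (iota c))
    (S' * Matrix.diagonal (fun _ => (c t')⁻¹ • lamA t'⁻¹)) rfl ?_
  · rw [iota_of]
    apply isUnit_smul_sub_one'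
    rw [abs_of_pos hct1]
    exact hct
  · rw [mul_assoc, mul_sub, Matrix.diagonal_mul_diagonal]
    have e1 : (Matrix.diagonal fun i : Fin d => (c t')⁻¹ • lamA t'⁻¹ * (iota c) (gof t')) =
        (1 : Matrix (Fin d) (Fin d) (OA G)) := by
      rw [iota_of]
      rw [smul_mul_smul_comm, inv_mul_cancel₀ hct0, ← lamA_mul, inv_mul_cancel, lamA_one,
        one_smul]
      exact Matrix.diagonal_one
    have e2 : (Matrix.diagonal fun _ : Fin d => (c t')⁻¹ • lamA t'⁻¹) *
        (Matrix.of W).map (iota c) = B := by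
      ext1 i j
      rw [Matrix.diagonal_mul]
      rfl
    rw [e1, e2]
    exact hS'

end

end Pool.Agent.Q103.BNS
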